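import Mathlib
import Pool.Agent.T9h24.Nmr

/-!
The numbers of monomials of given order along a linear subspace, and their limits: exact statements of
the numerical pieces.

`AD n d` is the finset of the exponents `a : Fin (n + 1) →₀ ℕ` of degree `d` (`mem_AD`), `NN n d` is its
cardinality, `NN_eq : NN n d = (d + n).choose n`.
-/

set_option autoImplicit false

open Finset

namespace Pool.Agent.T9h24.Ls

open Pool.Agent.T9h24 (AD NN)

/-- the sum over all exponents `a` of degree `d` of the truncated differences `θ - (a_0 + … + a_(k-1))` -/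
def PK (n d k θ : ℕ) : ℕ :=
  ∑ a ∈ AD n d, (θ - ∑ l ∈ Finset.univ.filter (fun l : Fin (n + 1) => (l : ℕ) < k), a l)

/-- `E (B - k)⁺ / (n + 1)` for a binomial variable `B` with parameters `n + 1` and `c`; this is also
`∫_0^c P(Bin(n, t) ≥ k) dt` -/
noncomputable def tl (n k : ℕ) (c : ℝ) : ℝ :=
  (∑ j ∈ Finset.range (n + 2),
    ((j - k : ℕ) : ℝ) * ((n + 1).choose j) * c ^ j * (1 - c) ^ (n + 1 - j)) / (n + 1)

/-- the Legendre transform: the partial integral of the quantiles of the orders -/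
noncomputable def gk (n k : ℕ) (u : ℝ) : ℝ :=
  ⨆ c : Set.Icc (0 : ℝ) 1, ((c : ℝ) * u - tl n k c)

/-- **Piece (A).** The choice of the degree and of the thresholds.

Sketch. Let `M = d + n`. (A1) For `1 ≤ m`, `#{a ∈ AD n d : a_0 + … + a_(k-1) < m}` is the number of
`n`-subsets of `{1, …, M}` (the bars) with at least `k` elements in `{1, …, m + k - 1}`; an `n`-subset
gives `n!` injective functions `Fin n → Fin M`, so `n!` times this number is at most
`M ^ n P(Bin(n, (m + k - 1) / M) ≥ k)`, where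
`P(Bin(n, t) ≥ k) = ∑_{j = k}^n C(n, j) t ^ j (1 - t) ^ (n - j)`. (Any other proof of an upper bound
`#{…} ≤ d ^ n / n! * (P(Bin(n, m / d) ≥ k) + o(1))`, uniform in `m ≤ d`, is as good; for instance by
the exact count `∑_{i < m} C(i + k - 1, k - 1) C(d - i + n - k, n - k)` and the Beta integral.)
(A2) `tl n k` has the derivative `P(Bin(n, c) ≥ k)` (Bernstein polynomials:
`bernsteinPolynomial.derivative_succ`), which is nondecreasing on `[0, 1]`; so
`PK n d k θ = ∑_{m = 1}^θ #{…} ≤ (M ^ n / n!) ∑_{m ≤ θ + k} P(Bin(n, m / M) ≥ k)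
  ≤ (M ^ n / n!) M tl ((θ + k + 1) / M)`.
(A3) `NN n d = (d + n).choose n`, so for `θ = ⌊c d⌋`, `d → ∞`: `PK n d k θ / (d NN n d)` has
limsup at most `tl n k c` (continuity). For each of the finitely many `k, u`: if `gk n k ((u+1)/r) ≤ 0`
take `θ = 0` (`PK n d k 0 = 0`); otherwise choose `c ∈ [0, 1]` with
`c (u+1)/r - tl n k c > η gk n k ((u+1)/r)` (property of the supremum) and `θ = ⌊c d⌋`; all
finitely many inequalities hold for large `d`. A model of (A3) for `k = n` is
`Pool.Agent.T9h24.exists_thetaP` in `Pool/Agent/T9h24/Pta.lean`. -/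
def StTheta : Prop := ∀ (n r : ℕ), 1 ≤ n → 1 ≤ r → ∀ η : ℝ, 0 ≤ η → η < 1 →
  ∃ (d : ℕ) (θ : ℕ → Fin r → ℕ), 1 ≤ d ∧ ∀ k, 1 ≤ k → k ≤ n → ∀ u : Fin r,
    ((d : ℝ) * NN n d) * (η * (r / (u + 1) * gk n k (((u : ℝ) + 1) / r))) ≤
      (θ k u : ℝ) * NN n d - r / (u + 1) * PK n d k (θ k u)

/-- **Piece (B).** The values of the profile at the end points. (`tl n k` is nonnegative on `[0, 1]`,
`tl n k 0 = 0`; `c - tl n k c` is nondecreasing on `[0, 1]` as `tl' = P(Bin(n, c) ≥ k) ≤ 1`, and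
`tl n k 1 = (n + 1 - k) / (n + 1)`.) -/
def StEnds : Prop := ∀ (n k : ℕ), 1 ≤ k → k ≤ n →
  gk n k 0 = 0 ∧ gk n k 1 = k / (n + 1)

end Pool.Agent.T9h24.Ls
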