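import Mathlib
import Pool.Agent.T9h24.Ptw
import Pool.Agent.T9h24.Ls.Spec

/-!
The mixed determinants for conjugates which are near to linear subspaces.
-/

set_option autoImplicit false
set_option linter.unusedSectionVars false

open Finset MvPolynomial NumberField IsDedekindDomain

namespace Pool.Agent.T9h24.Ls

open Pool.Agent.T9h24

/-- the forms of the frame `Λ` are combinations of the forms of `Λ'`, and the first `K` forms of `Λ`
are combinations of the first `K` forms of `Λ'` -/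
def Sub {F : Type} [Field F] {n : ℕ} (K : ℕ) (Λ Λ' : Fin (n + 1) → Fin (n + 1) → F) : Prop :=
  ∃ c : Fin (n + 1) → Fin (n + 1) → F, (∀ k, Λ k = ∑ i, c k i • Λ' i) ∧
    ∀ k i : Fin (n + 1), (k : ℕ) < K → ¬ (i : ℕ) < K → c k i = 0

section expand

variable {F : Type} [NormedField F] {n : ℕ}

/-- the order of a monomial along the first `K` forms -/
def od (K : ℕ) (b : Fin (n + 1) →₀ ℕ) : ℕ :=
  ∑ l ∈ Finset.univ.filter (fun l : Fin (n + 1) => (l : ℕ) < K), b l

/-- the span of the monomials of order at least `t` in the forms of a frame -/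
noncomputable def SP (Λ : Fin (n + 1) → Fin (n + 1) → F) (K t m : ℕ) :
    Submodule F (MvPolynomial (Fin (n + 1)) F) :=
  Submodule.span F {P | ∃ b : Fin (n + 1) →₀ ℕ, b.degree = m ∧ t ≤ od K b ∧
    P = ∏ j, LP (Λ j) ^ b j}

theorem LP_smul_add (s : Finset (Fin (n + 1))) (c : Fin (n + 1) → F)
    (Λ : Fin (n + 1) → Fin (n + 1) → F) :
    LP (∑ i ∈ s, c i • Λ i) = ∑ i ∈ s, c i • LP (Λ i) := by
  unfold LP
  simp only [Finset.sum_apply, Pi.smul_apply, smul_eq_mul, map_sum, Finset.sum_mul,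
    Finset.smul_sum]
  rw [Finset.sum_comm]
  refine Finset.sum_congr rfl fun i _ => Finset.sum_congr rfl fun j _ => ?_
  rw [C_mul, MvPolynomial.smul_eq_C_mul, mul_assoc]

theorem od_add_single (K : ℕ) (b : Fin (n + 1) →₀ ℕ) (k : Fin (n + 1)) :
    od K (b + Finsupp.single k 1) = od K b + if (k : ℕ) < K then 1 else 0 := by
  classical
  unfold od
  simp only [Finsupp.add_apply, Finset.sum_add_distrib]
  congr 1
  rw [Finset.sum_filter]
  rw [Finset.sum_eq_single k]
  · rw [Finsupp.single_eq_same]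
  · intro l _ hl
    rw [Finsupp.single_eq_of_ne hl]
    split_ifs <;> rfl
  · intro h
    exact absurd (Finset.mem_univ _) h

theorem mul_SP (Λ : Fin (n + 1) → Fin (n + 1) → F) (K t m : ℕ) (k : Fin (n + 1))
    {P : MvPolynomial (Fin (n + 1)) F} (hP : P ∈ SP Λ K t m) :
    LP (Λ k) * P ∈ SP Λ K (t + if (k : ℕ) < K then 1 else 0) (m + 1) := by
  classical
  unfold SP at hP ⊢
  refine Submodule.span_induction (p := fun P _ => LP (Λ k) * P ∈ Submodule.span F
    {P | ∃ b : Fin (n + 1) →₀ ℕ, b.degree = m + 1 ∧ (t + if (k : ℕ) < K then 1 else 0) ≤ od K b ∧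
    P = ∏ j, LP (Λ j) ^ b j}) ?_ ?_ ?_ ?_ hP
  · rintro _ ⟨b, hb, ht, rfl⟩
    refine Submodule.subset_span ⟨b + Finsupp.single k 1, ?_, ?_, ?_⟩
    · rw [map_add, hb, Finsupp.degree_single]
    · rw [od_add_single]
      omega
    · simp only [Finsupp.add_apply, pow_add]
      rw [Finset.prod_mul_distrib, mul_comm]
      congr 1
      rw [Finset.prod_eq_single k]
      · rw [Finsupp.single_eq_same, pow_one]
      · intro l _ hl
        rw [Finsupp.single_eq_of_ne hl, pow_zero]
      · intro h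
        exact absurd (Finset.mem_univ _) h
  · rw [mul_zero]
    exact Submodule.zero_mem _
  · intro x y _ _ hx hy
    rw [mul_add]
    exact Submodule.add_mem _ hx hy
  · intro c x _ hx
    rw [mul_smul_comm]
    exact Submodule.smul_mem _ c hx

theorem SP_anti (Λ : Fin (n + 1) → Fin (n + 1) → F) (K m : ℕ) {t t' : ℕ} (h : t ≤ t') :
    SP Λ K t' m ≤ SP Λ K t m := by
  unfold SP
  refine Submodule.span_mono ?_
  rintro _ ⟨b, hb, ht, rfl⟩
  exact ⟨b, hb, h.trans ht, rfl⟩

theorem form_SP {K : ℕ} {Λ Λ' : Fin (n + 1) → Fin (n + 1) → F} (h : Sub K Λ Λ') (t m : ℕ)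
    (k : Fin (n + 1)) {P : MvPolynomial (Fin (n + 1)) F} (hP : P ∈ SP Λ' K t m) :
    LP (Λ k) * P ∈ SP Λ' K (t + if (k : ℕ) < K then 1 else 0) (m + 1) := by
  classical
  obtain ⟨c, hc, hc0⟩ := h
  rw [hc k, LP_smul_add, Finset.sum_mul]
  refine Submodule.sum_mem _ fun i _ => ?_
  rw [smul_mul_assoc]
  by_cases hk : (k : ℕ) < K
  · rw [if_pos hk]
    by_cases hi : (i : ℕ) < K
    · refine Submodule.smul_mem _ _ ?_
      have h1 := mul_SP Λ' K t m i hP
      rw [if_pos hi] at h1
      exact h1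
    · rw [hc0 k i hk hi, zero_smul]
      exact Submodule.zero_mem _
  · rw [if_neg hk]
    refine Submodule.smul_mem _ _ ?_
    exact SP_anti Λ' K (m + 1) (by omega) (mul_SP Λ' K t m i hP)

theorem word_SP {K : ℕ} {Λ Λ' : Fin (n + 1) → Fin (n + 1) → F} (h : Sub K Λ Λ') :
    ∀ (m : ℕ) (I : Fin m → Fin (n + 1)),
      ∏ t, LP (Λ (I t)) ∈ SP Λ' K (∑ t, if (I t : ℕ) < K then 1 else 0) m := by
  intro m
  induction m with
  | zero =>
    intro I
    unfold SP
    refine Submodule.subset_span ⟨0, by simp, by simp, by simp⟩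
  | succ m ih =>
    intro I
    rw [Fin.prod_univ_succ, Fin.sum_univ_succ, add_comm (if (I 0 : ℕ) < K then 1 else 0)]
    exact form_SP h _ _ _ (ih fun t => I t.succ)

theorem mono_SP {K m : ℕ} {Λ Λ' : Fin (n + 1) → Fin (n + 1) → F} (h : Sub K Λ Λ')
    (a : Fin (n + 1) →₀ ℕ) (ha : a.degree = m) :
    ∏ j, LP (Λ j) ^ a j ∈ SP Λ' K (od K a) m := by
  classical
  obtain ⟨I, hI⟩ := exists_word m a ha
  have h1 := word_SP h m I
  rw [prod_word hI (fun j => LP (Λ j))] at h1
  have h2 : (∑ t, if (I t : ℕ) < K then 1 else 0) = od K a := by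
    unfold od
    simp only [hI]
    rw [Finset.sum_comm]
    refine Finset.sum_congr rfl fun t _ => ?_
    rw [Finset.sum_filter]
    rw [Finset.sum_eq_single (I t)]
    · split_ifs <;> simp_all
    · intro l _ hl
      split_ifs with h3 h4
      · exact absurd h4.symm hl
      · rfl
      · rfl
    · intro h
      exact absurd (Finset.mem_univ _) h
  rw [h2] at h1
  exact h1

/-- the rows of the matrix of one frame are combinations of rows of the other -/
theorem row_mem {n' d : ℕ} (e : Fin (n' + 1) ≃ AD n d) {K : ℕ}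
    {Λ Λ' : Fin (n + 1) → Fin (n + 1) → F} (h : Sub K Λ Λ') (t : ℕ) (a : Fin (n' + 1))
    (ha : t ≤ od K (e a : Fin (n + 1) →₀ ℕ)) :
    MF e Λ a ∈ Submodule.span F (Set.range fun a' :
      {a' : Fin (n' + 1) // t ≤ od K (e a' : Fin (n + 1) →₀ ℕ)} => MF e Λ' a') := by
  classical
  -- the coefficients
  let φ : MvPolynomial (Fin (n + 1)) F →ₗ[F] (Fin (n' + 1) → F) :=
    { toFun := fun P i => P.coeff (e i : Fin (n + 1) →₀ ℕ)
      map_add' := fun P Q => by
        funext i
        simp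
      map_smul' := fun c P => by
        funext i
        simp }
  have hφ : ∀ (Λ : Fin (n + 1) → Fin (n + 1) → F) (a : Fin (n' + 1)), MF e Λ a =
      φ (∏ j, LP (Λ j) ^ (e a : Fin (n + 1) →₀ ℕ) j) := fun Λ a => rfl
  have h1 := SP_anti Λ' K d ha (mono_SP h (e a : Fin (n + 1) →₀ ℕ) (mem_AD.1 (e a).2))
  have h2 := Submodule.mem_map_of_mem (f := φ) h1
  rw [← hφ] at h2
  refine Set.mem_of_subset_of_mem ?_ h2
  unfold SP
  rw [Submodule.map_span]
  refine SetLike.coe_subset_coe.2 (Submodule.span_mono ?_)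
  rintro _ ⟨_, ⟨b, hb, hbt, rfl⟩, rfl⟩
  refine ⟨⟨e.symm ⟨b, mem_AD.2 hb⟩, ?_⟩, ?_⟩
  · rw [Equiv.apply_symm_apply]
    exact hbt
  · show MF e Λ' (e.symm ⟨b, mem_AD.2 hb⟩) = _
    rw [hφ, Equiv.apply_symm_apply]

end expand

open Classical in
/-- **The combinatorial bound** for the flats. -/
theorem weight_flats {F : Type} [Field F] {N q r : ℕ} {X : Type}
    (W : X → Matrix (Fin (N + 1)) (Fin (N + 1)) F) (hW : ∀ x, (W x).det ≠ 0)
    (comp : X → Finset (Fin q)) (α : Fin q → Fin (N + 1) → ℕ)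
    (hY : ∀ i t x x', i ∈ comp x → i ∈ comp x' → ∀ a, t ≤ α i a →
      W x a ∈ Submodule.span F (Set.range fun a' : {a' // t ≤ α i a'} => W x' a'))
    {H : Type} [Fintype H] (θ : Fin q → Fin r → ℕ) (f : H → X)
    (μ : H → Fin q → ℝ) (hμ : ∀ τ i, μ τ i ≠ 0 → i ∈ comp (f τ))
    (δ : Fin q → Fin r → ℝ) (As : Fin q → Fin r → Finset H) (hδ : ∀ i u, 0 ≤ δ i u)
    (hμδ : ∀ τ i, μ τ i = ∑ u, if τ ∈ As i u then δ i u else 0)
    (hδμ : ∀ i u, δ i u ≠ 0 → ∀ τ ∈ As i u, μ τ i ≠ 0)
    (σ : Fin (N + 1) → H) (κ : Fin (N + 1) → Fin (N + 1))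
    (hdet : (Matrix.of fun l j => (W (f (σ l)))⁻¹ j (κ l)).det ≠ 0) :
    ∑ i, ∑ u, δ i u * ((θ i u : ℝ) * cntA σ (As i u) - ((∑ a, (θ i u - α i a) : ℕ) : ℝ)) ≤
      ∑ l, ∑ i, (α i (κ l) : ℝ) * μ (σ l) i := by
  have h2 : ∑ l, ∑ i, (α i (κ l) : ℝ) * μ (σ l) i =
      ∑ i, ∑ u, δ i u * ((∑ l ∈ Finset.univ.filter (fun l => σ l ∈ As i u),
        α i (κ l) : ℕ) : ℝ) := by
    rw [Finset.sum_comm]
    refine Finset.sum_congr rfl fun i _ => ?_
    have h3 : ∀ l ∈ (Finset.univ : Finset (Fin (N + 1))), (α i (κ l) : ℝ) * μ (σ l) i =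
        ∑ u, if σ l ∈ As i u then δ i u * (α i (κ l) : ℝ) else 0 := by
      intro l _
      rw [hμδ, Finset.mul_sum]
      refine Finset.sum_congr rfl fun u _ => ?_
      split_ifs
      · ring
      · ring
    rw [Finset.sum_congr rfl h3, Finset.sum_comm]
    refine Finset.sum_congr rfl fun u _ => ?_
    push_cast
    rw [Finset.mul_sum, Finset.sum_filter]
  rw [h2]
  refine Finset.sum_le_sum fun i _ => Finset.sum_le_sum fun u _ => ?_
  rcases eq_or_ne (δ i u) 0 with h0 | h0
  · rw [h0, zero_mul, zero_mul]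
  refine mul_le_mul_of_nonneg_left ?_ (hδ i u)
  set J := Finset.univ.filter (fun l => σ l ∈ As i u) with hJ
  have hJc : ∀ l ∈ J, i ∈ comp (f (σ l)) := fun l hl =>
    hμ _ _ (hδμ i u h0 (σ l) (Finset.mem_filter.1 hl).2)
  -- the thresholds
  have hcount : ∀ t, (J.filter fun l => α i (κ l) < t).card ≤
      (Finset.univ.filter fun a => α i a < t).card := by
    intro t
    rcases (J.filter fun l => α i (κ l) < t).eq_empty_or_nonempty with h3 | ⟨l0, hl0⟩
    · rw [h3]
      simp
    have hl0J := (Finset.mem_filter.1 hl0).1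
    have hx0 := hJc l0 hl0J
    set x0 := f (σ l0) with hx0d
    set Y : Submodule F (Fin (N + 1) → F) :=
      Submodule.span F (Set.range fun a' : {a' // t ≤ α i a'} => W x0 a') with hYd
    have hli : LinearIndependent F (W x0).row :=
      Matrix.linearIndependent_rows_iff_isUnit.2
        ((Matrix.isUnit_iff_isUnit_det _).2 (isUnit_iff_ne_zero.2 (hW x0)))
    have hYr : Module.finrank F Y = (Finset.univ.filter fun a => t ≤ α i a).card := by
      have h1 := finrank_span_eq_card (hli.comp (fun a : {a // t ≤ α i a} =>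
        (a : Fin (N + 1))) Subtype.val_injective)
      rw [Fintype.card_subtype] at h1
      exact h1
    have hb : ∀ (x : X) (a : Fin (N + 1)),
        ∑ j, W x a j • (Pi.basisFun F (Fin (N + 1))) j = W x a := by
      intro x a
      funext j
      rw [Finset.sum_apply, Finset.sum_eq_single j]
      · rw [Pi.basisFun_apply, Pi.smul_apply, Pi.single_eq_same, smul_eq_mul, mul_one]
      · intro j' _ hj'
        rw [Pi.basisFun_apply, Pi.smul_apply, Pi.single_eq_of_ne (Ne.symm hj'), smul_zero]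
      · intro h
        exact absurd (Finset.mem_univ _) h
    have h1 := count_main (Pi.basisFun F (Fin (N + 1))) W hW (fun _ => α i)
      ((J.filter fun l => α i (κ l) < t).image fun l => f (σ l)) t Y
      (fun x hx a ha => by
        obtain ⟨l, hl, rfl⟩ := Finset.mem_image.1 hx
        rw [hb]
        exact hY i t _ _ (hJc l (Finset.mem_filter.1 hl).1) hx0 a ha)
      0 (fun x _ => by rw [hYr, add_zero]) (fun l => f (σ l)) κ hdet
      (J.filter fun l => α i (κ l) < t) (fun l hl =>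
        ⟨Finset.mem_image_of_mem _ hl, (Finset.mem_filter.1 hl).2⟩)
    rw [hYr, mul_zero, add_zero] at h1
    have h4 : (Finset.univ.filter fun a => t ≤ α i a).card +
        (Finset.univ.filter fun a => α i a < t).card = N + 1 := by
      have h5 := Finset.card_filter_add_card_filter_not (s := (Finset.univ : Finset (Fin (N + 1))))
        (fun a => t ≤ α i a)
      simp only [not_le] at h5
      rw [h5, Finset.card_univ, Fintype.card_fin]
    omega
  have h3 : ∑ l ∈ J, (θ i u - α i (κ l)) ≤ ∑ a, (θ i u - α i a) := by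
    have e1 : ∑ l ∈ J, (θ i u - α i (κ l)) =
        ∑ t ∈ Finset.range (θ i u), (J.filter fun l => α i (κ l) < t + 1).card := by
      simp only [tsub_eq_sum]
      rw [Finset.sum_comm]
      exact Finset.sum_congr rfl fun t _ => by rw [Finset.card_filter]
    have e2 : ∑ a, (θ i u - α i a) =
        ∑ t ∈ Finset.range (θ i u), (Finset.univ.filter fun a => α i a < t + 1).card := by
      simp only [tsub_eq_sum]
      rw [Finset.sum_comm]
      exact Finset.sum_congr rfl fun t _ => by rw [Finset.card_filter]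
    rw [e1, e2]
    exact Finset.sum_le_sum fun t _ => hcount (t + 1)
  have h5 : θ i u * cntA σ (As i u) ≤ ∑ l ∈ J, α i (κ l) + ∑ a, (θ i u - α i a) := by
    have h6 : θ i u * cntA σ (As i u) = ∑ _l ∈ J, θ i u := by
      rw [Finset.sum_const, smul_eq_mul, mul_comm]
      rfl
    rw [h6]
    refine le_trans ?_ (Nat.add_le_add_left h3 _)
    rw [← Finset.sum_add_distrib]
    refine Finset.sum_le_sum fun l hl => ?_
    omega
  have h6 : ((θ i u * cntA σ (As i u) : ℕ) : ℝ) ≤
      ((∑ l ∈ J, α i (κ l) + ∑ a, (θ i u - α i a) : ℕ) : ℝ) := by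
    exact_mod_cast h5
  rw [Nat.cast_mul, Nat.cast_add (∑ l ∈ _, _)] at h6
  linarith

end Pool.Agent.T9h24.Ls
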