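import Mathlib
import Pool.Agent.T9h24.Ls.Det

/-!
One place: the determinants for the flats, and the layers.
-/

set_option autoImplicit false
set_option linter.unusedSectionVars false

open Finset MvPolynomial NumberField IsDedekindDomain

namespace Pool.Agent.T9h24.Ls

open Pool.Agent.T9h24

theorem Sub.map {n K : ℕ} {R F : Type} [Field R] [Field F]
    {Λ Λ' : Fin (n + 1) → Fin (n + 1) → R} (h : Sub K Λ Λ') (j : R →+* F) :
    Sub K (fun k l => j (Λ k l)) (fun k l => j (Λ' k l)) := by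
  obtain ⟨c, hc, hc0⟩ := h
  refine ⟨fun k i => j (c k i), fun k => ?_, fun k i hk hi => ?_⟩
  · funext l
    have h1 := congrFun (hc k) l
    rw [Finset.sum_apply] at h1 ⊢
    show j (Λ k l) = _
    rw [h1, map_sum]
    refine Finset.sum_congr rfl fun i _ => ?_
    rw [Pi.smul_apply, Pi.smul_apply, smul_eq_mul, smul_eq_mul, map_mul]
  · show j (c k i) = 0
    rw [hc0 k i hk hi, map_zero]

open Classical in
/-- **One place.** -/
theorem flat_place {F : Type} [NormedField F] [CharZero F] [IsAlgClosed F] {n n' d q r : ℕ}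
    {X : Type} (G : Polynomial ℤ) (hG : G ≠ 0) (e : Fin (n' + 1) ≃ AD n d)
    (M : X → Fin (n + 1) → Fin (n + 1) → AlgebraicClosure ℚ)
    (hM : ∀ s k l, M s k l ∈ (mp (AlgebraicClosure ℚ) G).roots)
    (hMd : ∀ s, (Matrix.of (M s)).det ≠ 0) (comp : X → Finset (Fin q)) (K : Fin q → ℕ)
    (hS : ∀ i s s', i ∈ comp s → i ∈ comp s' → Sub (K i) (M s) (M s'))
    (θ : Fin q → Fin r → ℕ) (A : ℝ) (hA : 1 ≤ A) : ∃ K0 : ℝ,
    ∀ (E : Type) [Field E] [NumberField E] (x : Fin (n + 1) → 𝓞 E), x ≠ 0 →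
      ∀ (j : AlgebraicClosure ℚ →+* F) (f : (E →+* F) → X) (μ : (E →+* F) → Fin q → ℝ),
      (∀ τ i, μ τ i ≠ 0 → i ∈ comp (f τ)) →
      (∀ τ (k : Fin (n + 1)), ‖lf (fun l => j (M (f τ) k l)) (fun l => τ (x l : E))‖ ≤
        A * ‖fun l => τ (x l : E)‖ *
          Real.exp (-∑ i, if (k : ℕ) < K i then μ τ i else 0)) →
      ∀ (δ : Fin q → Fin r → ℝ) (As : Fin q → Fin r → Finset (E →+* F)),
      (∀ i u, 0 ≤ δ i u) → (∀ τ i, μ τ i = ∑ u, if τ ∈ As i u then δ i u else 0) →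
      (∀ i u, δ i u ≠ 0 → ∀ τ ∈ As i u, μ τ i ≠ 0) →
      MixedV F G e x (fun σ => ∑ i, ∑ u, δ i u * ((θ i u : ℝ) * cntA σ (As i u) -
        ((PK n d (K i) (θ i u) : ℕ) : ℝ)) - K0) := by
  set RF : Finset F := (mp F G).roots.toFinset with hRF
  obtain ⟨M0, hM1, hM0⟩ := exists_big (fun p : (Fin (n' + 1) → Fin (n + 1) → Fin (n + 1) → RF) ×
    (Fin (n' + 1) → Fin (n' + 1)) => ‖(Matrix.of fun l j =>
      (MF e (fun k j => (p.1 l k j : F)))⁻¹ j (p.2 l)).det‖)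
  have hA0 : (0 : ℝ) < A := by linarith
  have hM00 : (0 : ℝ) < M0 := by exact_mod_cast hM1
  set KK : ℝ := ((n' : ℝ) + 1) ^ (n' + 1) * ((A ^ d) ^ (n' + 1) * M0) with hKK
  have hKK0 : 0 < KK := by
    rw [hKK]
    positivity
  refine ⟨Real.log KK, fun E _ _ x hx j f μ hμ hval δ As hδ hμδ hδμ => ?_⟩
  intro σ ξ hξ
  have hℓ : ∀ τ : E →+* F, (fun i => τ (x i : E)) ≠ 0 := by
    intro τ h0
    apply hx
    funext i
    have h1 : τ (x i : E) = 0 := congrFun h0 i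
    exact RingOfIntegers.ext (by simpa using h1)
  set Ξ : ℝ := ∑ i, ∑ u, δ i u * ((θ i u : ℝ) * cntA σ (As i u) -
        ((PK n d (K i) (θ i u) : ℕ) : ℝ)) with hΞ
  set MM : X → Fin (n + 1) → Fin (n + 1) → F := fun s k l => j (M s k l) with hMM
  have hr : ∀ s k l, MM s k l ∈ (mp F G).roots := fun s k l => map_root hG (hM s k l) j
  have hMMd : ∀ s, (Matrix.of (MM s)).det ≠ 0 := by
    intro s
    have h1 : (Matrix.of (MM s)).det = j (Matrix.of (M s)).det := by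
      rw [RingHom.map_det]
      rfl
    rw [h1]
    exact (map_ne_zero j).2 (hMd s)
  set α : Fin q → Fin (n' + 1) → ℕ := fun i a => od (K i) (e a : Fin (n + 1) →₀ ℕ) with hα
  have hPK : ∀ i t, PK n d (K i) t = ∑ a, (t - α i a) := by
    intro i t
    unfold PK
    rw [← Finset.sum_coe_sort (AD n d) (fun a => t - ∑ l ∈ Finset.univ.filter
      (fun l : Fin (n + 1) => (l : ℕ) < K i), a l),
      ← Equiv.sum_comp e (fun a : AD n d => t - ∑ l ∈ Finset.univ.filter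
      (fun l : Fin (n + 1) => (l : ℕ) < K i), (a : Fin (n + 1) →₀ ℕ) l)]
    rfl
  have hval2 : ∀ l a, ‖∑ i, MF e (MM (f (σ l))) a i * ξ l i‖ ≤ A ^ d *
      Real.exp (-∑ i, (α i a : ℝ) * μ (σ l) i) := by
    intro l a
    have h1 := frame_val2 e (MM (f (σ l))) (fun i => σ l (x i : E)) (hℓ _) A
      (fun k => ∑ i, if (k : ℕ) < K i then μ (σ l) i else 0) (fun k => hval (σ l) k) (ξ l)
      (fun I => hξ l (fun k => MM (f (σ l)) (I k)) fun k j => hr _ _ _) a
    refine h1.trans (le_of_eq ?_)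
    congr 3
    simp only [Finset.mul_sum]
    rw [Finset.sum_comm]
    refine Finset.sum_congr rfl fun i _ => ?_
    simp only [hα]
    unfold od
    push_cast
    rw [Finset.sum_mul, Finset.sum_filter]
    refine Finset.sum_congr rfl fun k _ => ?_
    split_ifs
    · rfl
    · rw [mul_zero]
  have hmain := multi_bound2 (fun τ : E →+* F => MF e (MM (f τ)))
    (fun τ => det_MF e _ (hMMd _)) σ ξ M0
    ((A ^ d) ^ (n' + 1) * Real.exp (-Ξ)) (by positivity) hM00.le (fun κ => by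
      have h2 := hM0 (fun l k i => ⟨MM (f (σ l)) k i, Multiset.mem_toFinset.2 (hr _ _ _)⟩, κ)
      exact h2)
    (fun κ hκ => by
      have h1 : ∏ l, ‖∑ i, MF e (MM (f (σ l))) (κ l) i * ξ l i‖ ≤ ∏ l, (A ^ d *
          Real.exp (-∑ i, (α i (κ l) : ℝ) * μ (σ l) i)) :=
        Finset.prod_le_prod (fun l _ => norm_nonneg _) fun l _ => hval2 l (κ l)
      refine h1.trans ?_
      rw [Finset.prod_mul_distrib, Finset.prod_const, Finset.card_univ, Fintype.card_fin,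
        ← Real.exp_sum, Finset.sum_neg_distrib]
      refine mul_le_mul_of_nonneg_left (Real.exp_le_exp.2 (neg_le_neg ?_)) (by positivity)
      have h2 := weight_flats (fun s => MF e (MM s)) (fun s => det_MF e _ (hMMd s)) comp α
        (fun i t s s' hs hs' a ha => row_mem e ((hS i s s' hs hs').map j) t a ha)
        θ f μ hμ δ As hδ hμδ hδμ σ κ hκ
      rw [hΞ]
      simp only [hPK]
      exact h2)
  refine hmain.trans (le_of_eq ?_)
  have h1 : -(Ξ - Real.log KK) = -Ξ + Real.log KK := by ring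
  show _ = Real.exp (-(Ξ - Real.log KK))
  rw [h1, Real.exp_add, Real.exp_log hKK0, hKK]
  ring

/-- one place: the layers of all flats -/
theorem place_layersK {n' q : ℕ} {H : Type} [Fintype H] [DecidableEq H] {r : ℕ} (hr : 1 ≤ r)
    (hH : Fintype.card H = r) (g : Fin q → ℝ → ℝ) (hg0 : ∀ i, g i 0 = 0) (θ : Fin q → Fin r → ℕ)
    (T : Fin q → Fin r → ℝ) (L0 η : ℝ) (hL0 : 0 ≤ L0) (hη : 0 ≤ η)
    (hT : ∀ i, ∀ u : Fin r, L0 * (η * (r / (u + 1) * g i (((u : ℝ) + 1) / r))) ≤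
      (θ i u : ℝ) * ((n' : ℝ) + 1) - r / (u + 1) * T i u)
    (μ : H → Fin q → ℝ) (hμ : ∀ τ i, 0 ≤ μ τ i) :
    ∃ (δ : Fin q → Fin r → ℝ) (As : Fin q → Fin r → Finset H), (∀ i u, 0 ≤ δ i u) ∧
      (∀ τ i, μ τ i = ∑ u, if τ ∈ As i u then δ i u else 0) ∧
      (∀ i u, δ i u ≠ 0 → ∀ τ ∈ As i u, μ τ i ≠ 0) ∧
      ∀ K0 : ℝ, (r : ℝ) ^ n' * (L0 * (η * (r * ∑ i, LstG (g i) r fun τ => μ τ i))) -
        (r : ℝ) ^ (n' + 1) * K0 ≤ ∑ σ : Fin (n' + 1) → H,
          (∑ i, ∑ u, δ i u * ((θ i u : ℝ) * cntA σ (As i u) - T i u) - K0) := by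
  classical
  have h := fun i => place_layersG (n' := n') hr hH (g i) (hg0 i) (θ i) (T i) L0 η hL0 hη (hT i)
    (fun τ (_ : Fin 1) => μ τ i) (fun τ _ => hμ τ i)
  choose δ As h1 h2 h3 h4 using h
  refine ⟨fun i => δ i 0, fun i => As i 0, fun i u => h1 i 0 u, fun τ i => h2 i τ 0,
    fun i u hu τ hτ => h3 i 0 u hu τ hτ, fun K0 => ?_⟩
  have h5 := Finset.sum_le_sum fun i (_ : i ∈ (Finset.univ : Finset (Fin q))) => h4 i 0
  simp only [mul_zero, sub_zero, Finset.univ_unique, Fin.default_eq_zero, Fin.isValue,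
    Finset.sum_singleton] at h5
  rw [Finset.sum_comm] at h5
  simp only [← Finset.mul_sum] at h5
  rw [Finset.sum_sub_distrib, Finset.sum_const, Finset.card_univ, Fintype.card_fun,
    Fintype.card_fin, hH, nsmul_eq_mul]
  push_cast
  linarith

end Pool.Agent.T9h24.Ls
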