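import Mathlib
import Pool.Agent.T9h24.Ls.Plc

/-!
Frames adapted to chains of linear subspaces.
-/

set_option autoImplicit false
set_option linter.unusedSectionVars false

namespace Pool.Agent.T9h24.Ls

open Module

section chain

variable {K : Type} [Field K] {n q : ℕ}

/-- the subspaces with indices in the set are pairwise comparable -/
def Chain (U : Fin q → Submodule K (Fin (n + 1) → K)) (s : Finset (Fin q)) : Prop :=
  ∀ i ∈ s, ∀ i' ∈ s, U i ≤ U i' ∨ U i' ≤ U i

theorem chain_vectors (U : Fin q → Submodule K (Fin (n + 1) → K)) (s : Finset (Fin q))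
    (hs : Chain U s) : ∀ m : ℕ, m ≤ n + 1 → ∃ v : Fin m → Fin (n + 1) → K,
      LinearIndependent K v ∧ ∀ i ∈ s, ∀ k : Fin m, (k : ℕ) < finrank K (U i) → v k ∈ U i := by
  classical
  intro m
  induction m with
  | zero =>
    intro _
    exact ⟨fun k => k.elim0, linearIndependent_empty_type, fun i _ k => k.elim0⟩
  | succ m ih =>
    intro hm
    obtain ⟨v, hv, hvU⟩ := ih (by omega)
    have hW : ∃ W : Submodule K (Fin (n + 1) → K), m < finrank K W ∧
        ∀ i ∈ s, m < finrank K (U i) → W ≤ U i := by
      rcases (s.filter fun i => m < finrank K (U i)).eq_empty_or_nonempty with h | h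
      · refine ⟨⊤, by rw [finrank_top, finrank_fin_fun]; omega, fun i hi him => ?_⟩
        have h1 : i ∈ s.filter fun i => m < finrank K (U i) := Finset.mem_filter.2 ⟨hi, him⟩
        rw [h] at h1
        exact absurd h1 (Finset.notMem_empty _)
      · obtain ⟨i0, hi0, hmin⟩ := Finset.exists_min_image _ (fun i => finrank K (U i)) h
        have hi0' := Finset.mem_filter.1 hi0
        refine ⟨U i0, hi0'.2, fun i hi him => ?_⟩
        rcases hs i0 hi0'.1 i hi with h1 | h1
        · exact h1
        · exact (Submodule.eq_of_le_of_finrank_le h1 (hmin i (Finset.mem_filter.2 ⟨hi, him⟩))).ge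
    obtain ⟨W, hWm, hW⟩ := hW
    have hw : ∃ w ∈ W, w ∉ Submodule.span K (Set.range v) := by
      by_contra hcon
      push Not at hcon
      have h1 : W ≤ Submodule.span K (Set.range v) := hcon
      have h2 := Submodule.finrank_mono h1
      have h3 := finrank_span_eq_card hv
      rw [Fintype.card_fin] at h3
      omega
    obtain ⟨w, hwW, hwv⟩ := hw
    refine ⟨Fin.snoc v w, linearIndependent_finSnoc.2 ⟨hv, hwv⟩, fun i hi k hk => ?_⟩
    induction k using Fin.lastCases with
    | last =>
      rw [Fin.snoc_last]
      refine hW i hi ?_ hwW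
      rwa [Fin.val_last] at hk
    | cast k =>
      rw [Fin.snoc_castSucc]
      exact hvU i hi k (by rwa [Fin.val_castSucc] at hk)

/-- a frame which is adapted to a chain -/
theorem chain_frame (U : Fin q → Submodule K (Fin (n + 1) → K)) (s : Finset (Fin q))
    (hs : Chain U s) : ∃ M : Fin (n + 1) → Fin (n + 1) → K, (Matrix.of M).det ≠ 0 ∧
      ∀ i ∈ s, ∀ k : Fin (n + 1), (k : ℕ) < finrank K (U i) → M k ∈ U i := by
  obtain ⟨v, hv, hvU⟩ := chain_vectors U s hs (n + 1) le_rfl
  refine ⟨v, ?_, hvU⟩
  have h1 : LinearIndependent K (Matrix.of v).row := hv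
  exact isUnit_iff_ne_zero.1 ((Matrix.isUnit_iff_isUnit_det _).1
    (Matrix.linearIndependent_rows_iff_isUnit.1 h1))

/-- frames adapted to the same subspace -/
theorem chain_sub (U : Submodule K (Fin (n + 1) → K)) (M M' : Fin (n + 1) → Fin (n + 1) → K)
    (hM' : (Matrix.of M').det ≠ 0)
    (h : ∀ k : Fin (n + 1), (k : ℕ) < finrank K U → M k ∈ U)
    (h' : ∀ k : Fin (n + 1), (k : ℕ) < finrank K U → M' k ∈ U) : Sub (finrank K U) M M' := by
  classical
  have hli : LinearIndependent K M' :=
    Matrix.linearIndependent_rows_iff_isUnit.2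
      ((Matrix.isUnit_iff_isUnit_det (Matrix.of M')).2 (isUnit_iff_ne_zero.2 hM'))
  set b := basisOfLinearIndependentOfCardEqFinrank hli (by
    rw [Fintype.card_fin, finrank_fin_fun]) with hb
  have hbv : ∀ k, b k = M' k := fun k => by
    rw [hb, coe_basisOfLinearIndependentOfCardEqFinrank]
  refine ⟨fun k l => b.repr (M k) l, fun k => ?_, fun k l hk hl => ?_⟩
  · conv_lhs => rw [← b.sum_repr (M k)]
    exact Finset.sum_congr rfl fun l _ => by rw [hbv]
  · -- the span of the first vectors
    set T : Set (Fin (n + 1)) := {l | (l : ℕ) < finrank K U} with hT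
    have hle : Submodule.span K (b '' T) ≤ U := by
      rw [Submodule.span_le]
      rintro _ ⟨l, hl, rfl⟩
      rw [hbv]
      exact h' l hl
    have hfr : finrank K (Submodule.span K (b '' T)) = finrank K U := by
      have h1 : finrank K U ≤ n + 1 := by
        have := Submodule.finrank_le U
        rwa [finrank_fin_fun] at this
      have h2 := finrank_span_eq_card ((b.linearIndependent).comp
        (fun l : T => (l : Fin (n + 1))) Subtype.val_injective)
      have h3 : Set.range (b ∘ fun l : T => (l : Fin (n + 1))) = b '' T := by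
        rw [Set.range_comp, Subtype.range_coe]
      rw [h3] at h2
      have h4 : Fintype.card T = (Finset.univ.filter fun l : Fin (n + 1) =>
          (l : ℕ) < finrank K U).card :=
        Fintype.card_of_subtype _ fun l => by simp [hT]
      rw [h2, h4]
      have h5 := Fin.card_filter_val_lt (n := n + 1) (m := finrank K U)
      rw [h5]
      omega
    have heq := Submodule.eq_of_le_of_finrank_eq hle hfr
    have hmem : M k ∈ Submodule.span K (b '' T) := by
      rw [heq]
      exact h k hk
    have h1 := (b.mem_span_image).1 hmem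
    by_contra h0
    exact hl (h1 (Finsupp.mem_support_iff.2 h0))

end chain

end Pool.Agent.T9h24.Ls
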