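import Mathlib
import Pool.Agent.T9h24.Ls.Frm

/-!
The exceptional local heights of a family of linear subspaces which is closed under intersections.
-/

set_option autoImplicit false
set_option linter.unusedSectionVars false

namespace Pool.Agent.T9h24.Ls

open Module Pool.Agent.T9h24

section defs

variable {n m q : ℕ}

/-- the linear forms which vanish on the subspace -/
noncomputable def Us (L : Fin q → Fin m → Fin (n + 1) → AlgebraicClosure ℚ) (i : Fin q) :
    Submodule (AlgebraicClosure ℚ) (Fin (n + 1) → AlgebraicClosure ℚ) :=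
  Submodule.span (AlgebraicClosure ℚ) (Set.range (L i))

/-- the values of the forms -/
noncomputable def vl {F : Type} [NormedField F] (L : Fin m → Fin (n + 1) → F)
    (y : Fin (n + 1) → F) (t : Fin m) : F := lf (L t) y

/-- the local height of the subspace -/
noncomputable def lz {F : Type} [NormedField F] (L : Fin m → Fin (n + 1) → F)
    (y : Fin (n + 1) → F) : ℝ := Real.log (‖y‖ / ‖vl L y‖)

/-- the exceptional local height of the subspace -/
noncomputable def exh {F : Type} [NormedField F]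
    (L : Fin q → Fin m → Fin (n + 1) → AlgebraicClosure ℚ) (j : AlgebraicClosure ℚ →+* F)
    (i : Fin q) (y : Fin (n + 1) → F) : ℝ :=
  max 0 (lz (fun t l => j (L i t l)) y - ⨆ i' : {i' // Us L i < Us L i'},
    max 0 (lz (fun t l => j (L i' t l)) y))

end defs

section basic

variable {n m q : ℕ} {F : Type} [NormedField F]

theorem exh_nonneg (L : Fin q → Fin m → Fin (n + 1) → AlgebraicClosure ℚ)
    (j : AlgebraicClosure ℚ →+* F) (i : Fin q) (y : Fin (n + 1) → F) : 0 ≤ exh L j i y :=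
  le_max_left _ _

theorem exh_le (L : Fin q → Fin m → Fin (n + 1) → AlgebraicClosure ℚ)
    (j : AlgebraicClosure ℚ →+* F) (i : Fin q) (y : Fin (n + 1) → F) (h : 0 < exh L j i y) :
    exh L j i y ≤ lz (fun t l => j (L i t l)) y := by
  unfold exh at h ⊢
  have h1 : 0 ≤ ⨆ i' : {i' // Us L i < Us L i'}, max 0 (lz (fun t l => j (L i' t l)) y) :=
    Real.iSup_nonneg fun _ => le_max_left _ _
  rcases lt_max_iff.1 h with h2 | h2
  · exact absurd h2 (lt_irrefl 0)
  · rw [max_eq_right h2.le]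
    linarith

theorem exh_le_sub (L : Fin q → Fin m → Fin (n + 1) → AlgebraicClosure ℚ)
    (j : AlgebraicClosure ℚ →+* F) (i i' : Fin q) (hi : Us L i < Us L i')
    (y : Fin (n + 1) → F) (h : 0 < exh L j i y) :
    exh L j i y ≤ lz (fun t l => j (L i t l)) y - max 0 (lz (fun t l => j (L i' t l)) y) := by
  unfold exh at h ⊢
  have h1 : max 0 (lz (fun t l => j (L i' t l)) y) ≤
      ⨆ i' : {i' // Us L i < Us L i'}, max 0 (lz (fun t l => j (L i' t l)) y) :=
    le_ciSup (f := fun i' : {i' // Us L i < Us L i'} => max 0 (lz (fun t l => j (L i' t l)) y))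
      (Set.finite_range _).bddAbove ⟨i', hi⟩
  rcases lt_max_iff.1 h with h2 | h2
  · exact absurd h2 (lt_irrefl 0)
  · rw [max_eq_right h2.le]
    linarith

/-- the norm of the values -/
theorem norm_vl_exp {L : Fin m → Fin (n + 1) → F} {y : Fin (n + 1) → F} (hy : y ≠ 0)
    (h : vl L y ≠ 0) : ‖vl L y‖ = ‖y‖ * Real.exp (-(lz L y)) := by
  have h1 : 0 < ‖y‖ := norm_pos_iff.2 hy
  have h3 : 0 < ‖vl L y‖ := norm_pos_iff.2 h
  unfold lz
  rw [Real.exp_neg, Real.exp_log (by positivity)]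
  field_simp

theorem vl_ne {L : Fin m → Fin (n + 1) → F} {y : Fin (n + 1) → F} (h : 0 < lz L y) :
    vl L y ≠ 0 := by
  intro h0
  unfold lz at h
  rw [h0, norm_zero, div_zero, Real.log_zero] at h
  exact lt_irrefl _ h

variable [CharZero F] [IsAlgClosed F]

theorem span_bound (L : Fin m → Fin (n + 1) → AlgebraicClosure ℚ)
    {w : Fin (n + 1) → AlgebraicClosure ℚ}
    (hw : w ∈ Submodule.span (AlgebraicClosure ℚ) (Set.range L)) :
    ∃ B : ℝ, 1 ≤ B ∧ ∀ (j : AlgebraicClosure ℚ →+* F) (y : Fin (n + 1) → F),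
      ‖lf (fun l => j (w l)) y‖ ≤ B * ‖vl (fun t l => j (L t l)) y‖ := by
  classical
  obtain ⟨c, hc⟩ := (Submodule.mem_span_range_iff_exists_fun _).1 hw
  choose B hB1 hB using fun t => embed_bound (F := F) (c t)
  have hB0 : ∀ t, 0 ≤ B t := fun t => zero_le_one.trans (hB1 t)
  refine ⟨1 + ∑ t, B t, by have := Finset.sum_nonneg fun t (_ : t ∈ Finset.univ) => hB0 t; linarith,
    fun j y => ?_⟩
  have h1 : lf (fun l => j (w l)) y = ∑ t, j (c t) * vl (fun t l => j (L t l)) y t := by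
    unfold vl lf
    simp only [Finset.mul_sum]
    rw [Finset.sum_comm]
    refine Finset.sum_congr rfl fun l _ => ?_
    rw [← hc, Finset.sum_apply, map_sum, Finset.sum_mul]
    refine Finset.sum_congr rfl fun t _ => ?_
    rw [Pi.smul_apply, smul_eq_mul, map_mul, mul_assoc]
  rw [h1]
  refine (norm_sum_le _ _).trans ?_
  have h2 : ∀ t ∈ (Finset.univ : Finset (Fin m)), ‖j (c t) * vl (fun t l => j (L t l)) y t‖ ≤
      B t * ‖vl (fun t l => j (L t l)) y‖ := by
    intro t _
    rw [norm_mul]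
    exact mul_le_mul (hB t j) (norm_le_pi_norm (vl (fun t l => j (L t l)) y) t) (norm_nonneg _)
      (hB0 t)
  refine (Finset.sum_le_sum h2).trans ?_
  rw [← Finset.sum_mul]
  refine mul_le_mul_of_nonneg_right ?_ (norm_nonneg _)
  linarith

theorem sup_bound (L L' : Fin m → Fin (n + 1) → AlgebraicClosure ℚ)
    {w : Fin (n + 1) → AlgebraicClosure ℚ}
    (hw : w ∈ Submodule.span (AlgebraicClosure ℚ) (Set.range L) ⊔
      Submodule.span (AlgebraicClosure ℚ) (Set.range L')) :
    ∃ B : ℝ, 1 ≤ B ∧ ∀ (j : AlgebraicClosure ℚ →+* F) (y : Fin (n + 1) → F),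
      ‖lf (fun l => j (w l)) y‖ ≤ B * (‖vl (fun t l => j (L t l)) y‖ +
        ‖vl (fun t l => j (L' t l)) y‖) := by
  obtain ⟨a, ha, b, hb, rfl⟩ := Submodule.mem_sup.1 hw
  obtain ⟨A, hA1, hA⟩ := span_bound (F := F) L ha
  obtain ⟨B, hB1, hB⟩ := span_bound (F := F) L' hb
  refine ⟨A + B, by linarith, fun j y => ?_⟩
  have h1 : lf (fun l => j ((a + b) l)) y = lf (fun l => j (a l)) y + lf (fun l => j (b l)) y := by
    unfold lf
    rw [← Finset.sum_add_distrib]
    refine Finset.sum_congr rfl fun l _ => ?_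
    show j ((a + b) l) * y l = j (a l) * y l + j (b l) * y l
    rw [Pi.add_apply, map_add, add_mul]
  rw [h1]
  refine (norm_add_le _ _).trans ?_
  have h2 := hA j y
  have h3 := hB j y
  have h4 := norm_nonneg (vl (fun t l => j (L t l)) y)
  have h5 := norm_nonneg (vl (fun t l => j (L' t l)) y)
  nlinarith

/-- uniform bounds for finitely many vectors -/
theorem sup_bounds (L L' : Fin m → Fin (n + 1) → AlgebraicClosure ℚ) {N : ℕ}
    (w : Fin N → Fin (n + 1) → AlgebraicClosure ℚ)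
    (hw : ∀ t, w t ∈ Submodule.span (AlgebraicClosure ℚ) (Set.range L) ⊔
      Submodule.span (AlgebraicClosure ℚ) (Set.range L')) :
    ∃ B : ℝ, 1 ≤ B ∧ ∀ (j : AlgebraicClosure ℚ →+* F) (y : Fin (n + 1) → F),
      ‖vl (fun t l => j (w t l)) y‖ ≤ B * (‖vl (fun t l => j (L t l)) y‖ +
        ‖vl (fun t l => j (L' t l)) y‖) := by
  choose B hB1 hB using fun t => sup_bound (F := F) L L' (hw t)
  have hB0 : ∀ t, 0 ≤ B t := fun t => zero_le_one.trans (hB1 t)
  have hs0 : 0 ≤ ∑ t, B t := Finset.sum_nonneg fun t _ => hB0 t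
  refine ⟨1 + ∑ t, B t, by linarith, fun j y => ?_⟩
  have h4 := norm_nonneg (vl (fun t l => j (L t l)) y)
  have h5 := norm_nonneg (vl (fun t l => j (L' t l)) y)
  rw [pi_norm_le_iff_of_nonneg (by positivity)]
  intro t
  refine (hB t j y).trans (mul_le_mul_of_nonneg_right ?_ (by positivity))
  have := Finset.single_le_sum (f := B) (fun t _ => hB0 t) (Finset.mem_univ t)
  linarith

/-- **Two subspaces which are not comparable.** -/
theorem flat_sep (L : Fin q → Fin m → Fin (n + 1) → AlgebraicClosure ℚ) (i i' : Fin q)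
    (hcl : Us L i ⊔ Us L i' = ⊤ ∨ ∃ i'', Us L i'' = Us L i ⊔ Us L i')
    (hnc : ¬ Us L i ≤ Us L i') (hnc' : ¬ Us L i' ≤ Us L i) :
    ∃ C0 : ℝ, 0 ≤ C0 ∧ ∀ (j : AlgebraicClosure ℚ →+* F) (y : Fin (n + 1) → F), y ≠ 0 →
      exh L j i y ≤ C0 ∨ exh L j i' y ≤ C0 := by
  classical
  -- the main step
  have key : ∀ (B : ℝ), 1 ≤ B → ∀ (j : AlgebraicClosure ℚ →+* F) (y : Fin (n + 1) → F), y ≠ 0 →
      ∀ lam : ℝ, ‖y‖ * Real.exp (-lam) ≤ B * (‖vl (fun t l => j (L i t l)) y‖ +
        ‖vl (fun t l => j (L i' t l)) y‖) →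
      vl (fun t l => j (L i t l)) y ≠ 0 → vl (fun t l => j (L i' t l)) y ≠ 0 →
      Real.log (2 * B) + lam < lz (fun t l => j (L i t l)) y →
      Real.log (2 * B) + lam < lz (fun t l => j (L i' t l)) y → False := by
    intro B hB j y hy lam h1 h2 h3 h4 h5
    have hy0 : 0 < ‖y‖ := norm_pos_iff.2 hy
    rw [norm_vl_exp hy h2, norm_vl_exp hy h3] at h1
    have h6 : Real.exp (-(lz (fun t l => j (L i t l)) y)) < Real.exp (-(Real.log (2 * B) + lam)) :=
      Real.exp_lt_exp.2 (neg_lt_neg h4)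
    have h7 : Real.exp (-(lz (fun t l => j (L i' t l)) y)) <
        Real.exp (-(Real.log (2 * B) + lam)) := Real.exp_lt_exp.2 (neg_lt_neg h5)
    have h8 : Real.exp (-(Real.log (2 * B) + lam)) = (2 * B)⁻¹ * Real.exp (-lam) := by
      rw [neg_add, Real.exp_add, Real.exp_neg, Real.exp_log (by linarith)]
    rw [h8] at h6 h7
    have h9 : B * (‖y‖ * Real.exp (-(lz (fun t l => j (L i t l)) y)) +
        ‖y‖ * Real.exp (-(lz (fun t l => j (L i' t l)) y))) <
        B * (‖y‖ * ((2 * B)⁻¹ * Real.exp (-lam)) + ‖y‖ * ((2 * B)⁻¹ * Real.exp (-lam))) := by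
      refine mul_lt_mul_of_pos_left (add_lt_add ?_ ?_) (by linarith)
      · exact mul_lt_mul_of_pos_left h6 hy0
      · exact mul_lt_mul_of_pos_left h7 hy0
    have h10 : B * (‖y‖ * ((2 * B)⁻¹ * Real.exp (-lam)) +
        ‖y‖ * ((2 * B)⁻¹ * Real.exp (-lam))) = ‖y‖ * Real.exp (-lam) := by
      have hB0 : B ≠ 0 := by linarith
      field_simp
      ring
    linarith
  rcases hcl with h | ⟨i'', h⟩
  · -- the span is everything
    obtain ⟨B, hB1, hB⟩ := sup_bounds (F := F) (L i) (L i') (N := n + 1)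
      (fun l => Pi.single l 1) (fun l => by
        have h1 : (Pi.single l 1 : Fin (n + 1) → AlgebraicClosure ℚ) ∈ Us L i ⊔ Us L i' := by
          rw [h]
          exact Submodule.mem_top
        exact h1)
    have hC0 : 0 ≤ Real.log (2 * B) := Real.log_nonneg (by linarith)
    refine ⟨Real.log (2 * B), hC0, fun j y hy => ?_⟩
    by_contra hcon
    push Not at hcon
    obtain ⟨h1, h2⟩ := hcon
    have h3 := exh_le L j i y (by linarith)
    have h4 := exh_le L j i' y (by linarith)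
    refine key B hB1 j y hy 0 ?_ (vl_ne (by linarith)) (vl_ne (by linarith)) (by linarith)
      (by linarith)
    rw [neg_zero, Real.exp_zero, mul_one]
    refine le_trans (le_of_eq ?_) (hB j y)
    congr 1
    funext l
    unfold vl lf
    rw [Finset.sum_eq_single l]
    · show y l = j ((Pi.single l 1 : Fin (n + 1) → AlgebraicClosure ℚ) l) * y l
      rw [Pi.single_eq_same, map_one, one_mul]
    · intro l' _ hl'
      show j ((Pi.single l 1 : Fin (n + 1) → AlgebraicClosure ℚ) l') * y l' = 0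
      rw [Pi.single_eq_of_ne hl', map_zero, zero_mul]
    · intro h
      exact absurd (Finset.mem_univ _) h
  · obtain ⟨B, hB1, hB⟩ := sup_bounds (F := F) (L i) (L i') (L i'') (fun t => by
      have h1 : L i'' t ∈ Us L i'' := Submodule.subset_span (Set.mem_range_self t)
      rw [h] at h1
      exact h1)
    have hC0 : 0 ≤ Real.log (2 * B) := Real.log_nonneg (by linarith)
    have hlt : Us L i < Us L i'' := by
      rw [h]
      exact left_lt_sup.2 hnc'
    have hlt' : Us L i' < Us L i'' := by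
      rw [h]
      exact right_lt_sup.2 hnc
    refine ⟨Real.log (2 * B), hC0, fun j y hy => ?_⟩
    by_contra hcon
    push Not at hcon
    obtain ⟨h1, h2⟩ := hcon
    have h3 := exh_le L j i y (by linarith)
    have h4 := exh_le L j i' y (by linarith)
    have h5 := exh_le_sub L j i i'' hlt y (by linarith)
    have h6 := exh_le_sub L j i' i'' hlt' y (by linarith)
    have h7 := le_max_right 0 (lz (fun t l => j (L i'' t l)) y)
    have h8 : vl (fun t l => j (L i'' t l)) y ≠ 0 := by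
      intro h0
      apply vl_ne (L := fun t l => j (L i t l)) (y := y) (by linarith)
      funext t
      obtain ⟨B', -, hB'⟩ := span_bound (F := F) (L i'') (w := L i t) (by
        have h1 : L i t ∈ Us L i := Submodule.subset_span (Set.mem_range_self t)
        exact hlt.le h1)
      have h9 := hB' j y
      rw [h0, norm_zero, mul_zero] at h9
      exact norm_le_zero_iff.1 h9
    refine key B hB1 j y hy (lz (fun t l => j (L i'' t l)) y) ?_ (vl_ne (by linarith))
      (vl_ne (by linarith)) (by linarith) (by linarith)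
    rw [← norm_vl_exp hy h8]
    exact hB j y

/-- the subspaces with large exceptional local heights form a chain -/
theorem exists_chain (L : Fin q → Fin m → Fin (n + 1) → AlgebraicClosure ℚ)
    (hcl : ∀ i i', Us L i ⊔ Us L i' = ⊤ ∨ ∃ i'', Us L i'' = Us L i ⊔ Us L i') :
    ∃ C0 : ℝ, 0 ≤ C0 ∧ ∀ (j : AlgebraicClosure ℚ →+* F) (y : Fin (n + 1) → F), y ≠ 0 →
      ∀ i i', C0 < exh L j i y → C0 < exh L j i' y → Us L i ≤ Us L i' ∨ Us L i' ≤ Us L i := by
  classical
  have h1 : ∀ i i' : Fin q, ∃ C0 : ℝ, 0 ≤ C0 ∧ (¬ Us L i ≤ Us L i' → ¬ Us L i' ≤ Us L i →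
      ∀ (j : AlgebraicClosure ℚ →+* F) (y : Fin (n + 1) → F), y ≠ 0 →
        exh L j i y ≤ C0 ∨ exh L j i' y ≤ C0) := by
    intro i i'
    by_cases h : ¬ Us L i ≤ Us L i' ∧ ¬ Us L i' ≤ Us L i
    · obtain ⟨C0, h2, h3⟩ := flat_sep (F := F) L i i' (hcl i i') h.1 h.2
      exact ⟨C0, h2, fun _ _ => h3⟩
    · exact ⟨0, le_rfl, fun h2 h3 => absurd ⟨h2, h3⟩ h⟩
  choose C0 hC0 hC using h1
  have hs : ∀ i i', C0 i i' ≤ ∑ i, ∑ i', C0 i i' := by
    intro i i'
    refine (Finset.single_le_sum (f := fun i' => C0 i i') (fun _ _ => hC0 _ _)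
      (Finset.mem_univ i')).trans ?_
    exact Finset.single_le_sum (f := fun i => ∑ i', C0 i i')
      (fun _ _ => Finset.sum_nonneg fun _ _ => hC0 _ _) (Finset.mem_univ i)
  refine ⟨∑ i, ∑ i', C0 i i', Finset.sum_nonneg fun _ _ => Finset.sum_nonneg fun _ _ => hC0 _ _,
    fun j y hy i i' h2 h3 => ?_⟩
  by_contra hcon
  push Not at hcon
  rcases hC i i' hcon.1 hcon.2 j y hy with h4 | h4
  · have := hs i i'
    linarith
  · have := hs i i'
    linarith

/-- the sum of the exceptional local heights of a chain -/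
theorem chain_sum (L : Fin q → Fin m → Fin (n + 1) → AlgebraicClosure ℚ)
    (hinj : Function.Injective (Us L)) (j : AlgebraicClosure ℚ →+* F) (y : Fin (n + 1) → F) :
    ∀ (N : ℕ) (s : Finset (Fin q)), s.card = N → (∀ i ∈ s, 0 < exh L j i y) →
      (∀ i ∈ s, ∀ i' ∈ s, Us L i ≤ Us L i' ∨ Us L i' ≤ Us L i) →
      ∀ i0 ∈ s, (∀ i ∈ s, Us L i0 ≤ Us L i) →
      ∑ i ∈ s, exh L j i y ≤ lz (fun t l => j (L i0 t l)) y := by
  classical
  intro N
  induction N with
  | zero =>
    intro s hs _ _ i0 hi0 _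
    rw [Finset.card_eq_zero.1 hs] at hi0
    exact absurd hi0 (Finset.notMem_empty _)
  | succ N ih =>
    intro s hs hpos hch i0 hi0 hmin
    rw [← Finset.add_sum_erase s _ hi0]
    rcases (s.erase i0).eq_empty_or_nonempty with h | h
    · rw [h, Finset.sum_empty, add_zero]
      exact exh_le L j i0 y (hpos i0 hi0)
    · obtain ⟨i1, hi1, hmin1⟩ := Finset.exists_min_image _
        (fun i => finrank (AlgebraicClosure ℚ) (Us L i)) h
      have hi1s := Finset.mem_of_mem_erase hi1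
      have hlt : Us L i0 < Us L i1 := lt_of_le_of_ne (hmin i1 hi1s) fun h2 =>
        Finset.ne_of_mem_erase hi1 (hinj h2).symm
      have h1 := ih (s.erase i0) (by rw [Finset.card_erase_of_mem hi0, hs]; rfl)
        (fun i hi => hpos i (Finset.mem_of_mem_erase hi))
        (fun i hi i' hi' => hch i (Finset.mem_of_mem_erase hi) i' (Finset.mem_of_mem_erase hi'))
        i1 hi1 (fun i hi => by
          rcases hch i1 hi1s i (Finset.mem_of_mem_erase hi) with h2 | h2
          · exact h2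
          · exact (Submodule.eq_of_le_of_finrank_le h2 (hmin1 i hi)).ge)
      have h2 := exh_le_sub L j i0 i1 hlt y (hpos i0 hi0)
      have h3 := le_max_right 0 (lz (fun t l => j (L i1 t l)) y)
      linarith

/-- **The values of the frame.** -/
theorem flat_val (L : Fin q → Fin m → Fin (n + 1) → AlgebraicClosure ℚ)
    (hinj : Function.Injective (Us L)) {X : Type} [Finite X]
    (M : X → Fin (n + 1) → Fin (n + 1) → AlgebraicClosure ℚ) (comp : X → Finset (Fin q))
    (hch : ∀ s, Chain (Us L) (comp s))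
    (hM : ∀ s, ∀ i ∈ comp s, ∀ k : Fin (n + 1),
      (k : ℕ) < finrank (AlgebraicClosure ℚ) (Us L i) → M s k ∈ Us L i) :
    ∃ A : ℝ, 1 ≤ A ∧ ∀ (j : AlgebraicClosure ℚ →+* F) (y : Fin (n + 1) → F), y ≠ 0 →
      ∀ (s : X) (μ : Fin q → ℝ), (∀ i, μ i ≠ 0 → i ∈ comp s) →
      (∀ i, μ i ≠ 0 → 0 < exh L j i y ∧ μ i = exh L j i y) → ∀ k : Fin (n + 1),
      ‖lf (fun l => j (M s k l)) y‖ ≤ A * ‖y‖ * Real.exp (-∑ i,
        if (k : ℕ) < finrank (AlgebraicClosure ℚ) (Us L i) then μ i else 0) := by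
  classical
  have := Fintype.ofFinite X
  -- the constants
  have h1 : ∀ p : X × Fin (n + 1) × Fin (n + 1), ∃ B : ℝ, 1 ≤ B ∧
      ∀ j : AlgebraicClosure ℚ →+* F, ‖j (M p.1 p.2.1 p.2.2)‖ ≤ B := fun p => embed_bound _
  choose B1 hB11 hB1 using h1
  have h2 : ∀ p : X × Fin (n + 1) × Fin q, ∃ B : ℝ, 1 ≤ B ∧
      (M p.1 p.2.1 ∈ Us L p.2.2 → ∀ (j : AlgebraicClosure ℚ →+* F) (y : Fin (n + 1) → F),
      ‖lf (fun l => j (M p.1 p.2.1 l)) y‖ ≤ B * ‖vl (fun t l => j (L p.2.2 t l)) y‖) := by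
    intro p
    by_cases h : M p.1 p.2.1 ∈ Us L p.2.2
    · obtain ⟨B, h3, h4⟩ := span_bound (F := F) (L p.2.2) h
      exact ⟨B, h3, fun _ => h4⟩
    · exact ⟨1, le_rfl, fun h3 => absurd h3 h⟩
  choose B2 hB21 hB2 using h2
  have hB10 : ∀ p, 0 ≤ B1 p := fun p => zero_le_one.trans (hB11 p)
  have hB20 : ∀ p, 0 ≤ B2 p := fun p => zero_le_one.trans (hB21 p)
  have hs1 : 0 ≤ ∑ p, B1 p := Finset.sum_nonneg fun p _ => hB10 p
  have hs2 : 0 ≤ ∑ p, B2 p := Finset.sum_nonneg fun p _ => hB20 p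
  refine ⟨1 + ∑ p, B1 p + ∑ p, B2 p, by linarith, fun j y hy s μ hμ hμe k => ?_⟩
  have hy0 : 0 < ‖y‖ := norm_pos_iff.2 hy
  set T := Finset.univ.filter fun i =>
    (k : ℕ) < finrank (AlgebraicClosure ℚ) (Us L i) ∧ μ i ≠ 0 with hT
  have hsum : (∑ i, if (k : ℕ) < finrank (AlgebraicClosure ℚ) (Us L i) then μ i else 0) =
      ∑ i ∈ T, exh L j i y := by
    rw [hT, Finset.sum_filter]
    refine Finset.sum_congr rfl fun i _ => ?_
    by_cases hk : (k : ℕ) < finrank (AlgebraicClosure ℚ) (Us L i)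
    · by_cases h0 : μ i = 0
      · rw [if_pos hk, if_neg (fun h => h.2 h0), h0]
      · rw [if_pos hk, if_pos ⟨hk, h0⟩, (hμe i h0).2]
    · rw [if_neg hk, if_neg (fun h => hk h.1)]
  rw [hsum]
  rcases T.eq_empty_or_nonempty with h | h
  · rw [h, Finset.sum_empty, neg_zero, Real.exp_zero, mul_one]
    unfold lf
    refine (norm_sum_le _ _).trans ?_
    have h3 : ∀ l ∈ (Finset.univ : Finset (Fin (n + 1))), ‖j (M s k l) * y l‖ ≤
        B1 (s, k, l) * ‖y‖ := by
      intro l _
      rw [norm_mul]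
      exact mul_le_mul (hB1 (s, k, l) j) (norm_le_pi_norm y l) (norm_nonneg _) (hB10 _)
    refine (Finset.sum_le_sum h3).trans ?_
    rw [← Finset.sum_mul]
    refine mul_le_mul_of_nonneg_right ?_ hy0.le
    have h4 : ∑ l, B1 (s, k, l) ≤ ∑ p, B1 p := by
      refine le_trans (le_of_eq (Finset.sum_map Finset.univ
        (⟨fun l : Fin (n + 1) => (s, k, l), fun l l' hll => by simpa using hll⟩ :
          Fin (n + 1) ↪ X × Fin (n + 1) × Fin (n + 1)) B1).symm) ?_
      exact Finset.sum_le_sum_of_subset_of_nonneg (Finset.subset_univ _) fun p _ _ => hB10 p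
    linarith
  · obtain ⟨i0, hi0, hmin⟩ := Finset.exists_min_image _
      (fun i => finrank (AlgebraicClosure ℚ) (Us L i)) h
    have hTc : ∀ i ∈ T, i ∈ comp s := fun i hi => hμ i (Finset.mem_filter.1 hi).2.2
    have hTp : ∀ i ∈ T, 0 < exh L j i y := fun i hi => (hμe i (Finset.mem_filter.1 hi).2.2).1
    have h3 := chain_sum L hinj j y T.card T rfl hTp
      (fun i hi i' hi' => hch s i (hTc i hi) i' (hTc i' hi')) i0 hi0 (fun i hi => by
        rcases hch s i0 (hTc i0 hi0) i (hTc i hi) with h2 | h2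
        · exact h2
        · exact (Submodule.eq_of_le_of_finrank_le h2 (hmin i hi)).ge)
    have h4 := hB2 (s, k, i0) (hM s i0 (hTc i0 hi0) k (Finset.mem_filter.1 hi0).2.1) j y
    have h5 : vl (fun t l => j (L i0 t l)) y ≠ 0 := vl_ne ((hTp i0 hi0).trans_le
      (exh_le L j i0 y (hTp i0 hi0)))
    refine h4.trans ?_
    rw [norm_vl_exp hy h5]
    have h6 : B2 (s, k, i0) ≤ 1 + ∑ p, B1 p + ∑ p, B2 p := by
      have := Finset.single_le_sum (f := B2) (fun p _ => hB20 p) (Finset.mem_univ (s, k, i0))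
      linarith
    have h7 : Real.exp (-(lz (fun t l => j (L i0 t l)) y)) ≤
        Real.exp (-∑ i ∈ T, exh L j i y) := Real.exp_le_exp.2 (neg_le_neg h3)
    rw [← mul_assoc]
    refine mul_le_mul (mul_le_mul_of_nonneg_right h6 hy0.le) h7 (Real.exp_nonneg _) (by positivity)

end basic

end Pool.Agent.T9h24.Ls
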