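import Mathlib
import Pool.Agent.T9h24.Ls.Geo
import Pool.Agent.T9h24.Ptd

/-!
The inequality for the exceptional local heights of linear subspaces, integral coordinates.
-/

set_option autoImplicit false
set_option linter.unusedSectionVars false

open Finset MvPolynomial NumberField IsDedekindDomain

namespace Pool.Agent.T9h24.Ls

open Pool.Agent.T9h24 Module

/-! ### The Legendre transform -/

theorem tl_nonneg (n k : ℕ) {c : ℝ} (h0 : 0 ≤ c) (h1 : c ≤ 1) : 0 ≤ tl n k c := by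
  unfold tl
  have h2 : 0 ≤ 1 - c := by linarith
  exact div_nonneg (Finset.sum_nonneg fun j _ => by positivity) (by positivity)

theorem gk_bdd (n k : ℕ) (u : ℝ) :
    BddAbove (Set.range fun c : Set.Icc (0 : ℝ) 1 => (c : ℝ) * u - tl n k c) := by
  refine ⟨|u|, ?_⟩
  rintro _ ⟨c, rfl⟩
  have h1 := tl_nonneg n k c.2.1 c.2.2
  have h2 : (c : ℝ) * u ≤ |u| := by
    have h3 : (c : ℝ) * u ≤ c * |u| := mul_le_mul_of_nonneg_left (le_abs_self u) c.2.1
    have h4 : (c : ℝ) * |u| ≤ 1 * |u| := mul_le_mul_of_nonneg_right c.2.2 (abs_nonneg u)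
    linarith
  show (c : ℝ) * u - tl n k c ≤ |u|
  linarith

theorem gk_mono (n k : ℕ) {u v : ℝ} (h : u ≤ v) : gk n k u ≤ gk n k v := by
  unfold gk
  refine ciSup_mono (gk_bdd n k v) fun c => ?_
  have := mul_le_mul_of_nonneg_left h c.2.1
  linarith

theorem gk_mid (n k : ℕ) (u v : ℝ) : gk n k ((u + v) / 2) ≤ (gk n k u + gk n k v) / 2 := by
  have hne : Nonempty (Set.Icc (0 : ℝ) 1) := ⟨⟨0, by simp⟩⟩
  unfold gk
  refine ciSup_le fun c => ?_
  have h1 := le_ciSup (gk_bdd n k u) c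
  have h2 := le_ciSup (gk_bdd n k v) c
  linarith

/-! ### Ordered means -/

theorem LstG_add {H : Type} [Fintype H] {r : ℕ} (hr : 1 ≤ r) (hH : Fintype.card H = r)
    (g : ℝ → ℝ) (hg : ∀ u v : ℝ, u ≤ v → g u ≤ g v) (f f' : H → ℝ) (c : ℝ)
    (h : ∀ τ, f τ ≤ f' τ + c) : LstG g r f ≤ LstG g r f' + c * (g 1 - g 0) := by
  have hr0 : (0 : ℝ) < r := by exact_mod_cast hr
  have hne : Nonempty (Fin r ≃ H) := ⟨(Fintype.equivFinOfCardEq hH).symm⟩
  rw [← sub_le_iff_le_add]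
  refine le_ciInf fun π => ?_
  rw [sub_le_iff_le_add]
  refine (LstG_le g r f π).trans ?_
  have h1 : ∀ u ∈ (Finset.univ : Finset (Fin r)),
      (g (((u : ℝ) + 1) / r) - g ((u : ℝ) / r)) * f (π u) ≤
      (g (((u : ℝ) + 1) / r) - g ((u : ℝ) / r)) * (f' (π u) + c) := fun u _ =>
    mul_le_mul_of_nonneg_left (h _) (sub_nonneg.2 (hg _ _
      (div_le_div_of_nonneg_right (by linarith) hr0.le)))
  refine (Finset.sum_le_sum h1).trans (le_of_eq ?_)
  simp only [mul_add]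
  rw [Finset.sum_add_distrib, ← Finset.sum_mul]
  congr 1
  rw [mul_comm c]
  congr 1
  have h2 : ∑ u : Fin r, (g (((u : ℝ) + 1) / r) - g ((u : ℝ) / r)) = ∑ u ∈ Finset.range r,
      (g (((u + 1 : ℕ) : ℝ) / r) - g ((u : ℝ) / r)) := by
    rw [Finset.sum_range]
    refine Finset.sum_congr rfl fun u _ => ?_
    push_cast
    rfl
  rw [h2, Finset.sum_range_sub (fun u : ℕ => g ((u : ℝ) / r)), div_self hr0.ne', Nat.cast_zero,
    zero_div]

/-! ### One place -/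

/-- the truncation -/
noncomputable def mx (C0 v : ℝ) : ℝ := if C0 < v then v else 0

theorem mx_nonneg {C0 v : ℝ} (hv : 0 ≤ v) : 0 ≤ mx C0 v := by
  unfold mx
  split_ifs
  · exact hv
  · exact le_rfl

theorem mx_ne {C0 v : ℝ} (h : mx C0 v ≠ 0) : C0 < v ∧ mx C0 v = v := by
  by_cases h1 : C0 < v
  · refine ⟨h1, ?_⟩
    unfold mx
    rw [if_pos h1]
  · exfalso
    apply h
    unfold mx
    rw [if_neg h1]

theorem le_mx {C0 v : ℝ} (hC0 : 0 ≤ C0) : v ≤ mx C0 v + C0 := by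
  unfold mx
  split_ifs with h
  · linarith
  · linarith

open Classical in
/-- **One place**, for the exceptional local heights. -/
theorem flat_place2 {F : Type} [NormedField F] [CharZero F] [IsAlgClosed F] {n n' d q m r : ℕ}
    (L : Fin q → Fin m → Fin (n + 1) → AlgebraicClosure ℚ) (hinj : Function.Injective (Us L))
    (hcl : ∀ i i', Us L i ⊔ Us L i' = ⊤ ∨ ∃ i'', Us L i'' = Us L i ⊔ Us L i')
    (G : Polynomial ℤ) (hG : G ≠ 0) (e : Fin (n' + 1) ≃ AD n d)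
    (M : {s : Finset (Fin q) // Chain (Us L) s} →
      Fin (n + 1) → Fin (n + 1) → AlgebraicClosure ℚ)
    (hMr : ∀ s k l, M s k l ∈ (mp (AlgebraicClosure ℚ) G).roots)
    (hMd : ∀ s, (Matrix.of (M s)).det ≠ 0)
    (hMU : ∀ s, ∀ i ∈ s.1, ∀ k : Fin (n + 1),
      (k : ℕ) < finrank (AlgebraicClosure ℚ) (Us L i) → M s k ∈ Us L i)
    (θ : Fin q → Fin r → ℕ) : ∃ C0 K0 : ℝ, 0 ≤ C0 ∧
    ∀ (E : Type) [Field E] [NumberField E] (x : Fin (n + 1) → 𝓞 E), x ≠ 0 →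
      ∀ (j : AlgebraicClosure ℚ →+* F),
      ∀ (δ : Fin q → Fin r → ℝ) (As : Fin q → Fin r → Finset (E →+* F)),
      (∀ i u, 0 ≤ δ i u) → (∀ τ i, mx C0 (exh L j i (fun l => τ (x l : E))) =
        ∑ u, if τ ∈ As i u then δ i u else 0) →
      (∀ i u, δ i u ≠ 0 → ∀ τ ∈ As i u, mx C0 (exh L j i (fun l => τ (x l : E))) ≠ 0) →
      MixedV F G e x (fun σ => ∑ i, ∑ u, δ i u * ((θ i u : ℝ) * cntA σ (As i u) -
        ((PK n d (finrank (AlgebraicClosure ℚ) (Us L i)) (θ i u) : ℕ) : ℝ)) - K0) := by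
  obtain ⟨C0, hC00, hC⟩ := exists_chain (F := F) L hcl
  obtain ⟨A, hA1, hA⟩ := flat_val (F := F) L hinj M (fun s => s.1) (fun s => s.2) hMU
  obtain ⟨K0, hK0⟩ := flat_place (F := F) G hG e M hMr hMd (fun s => s.1)
    (fun i => finrank (AlgebraicClosure ℚ) (Us L i))
    (fun i s s' hs hs' => chain_sub (Us L i) (M s) (M s') (hMd s') (hMU s i hs) (hMU s' i hs'))
    θ A hA1
  refine ⟨C0, K0, hC00, fun E _ _ x hx j δ As hδ hμδ hδμ => ?_⟩
  have hy : ∀ τ : E →+* F, (fun l => τ (x l : E)) ≠ 0 := by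
    intro τ h0
    apply hx
    funext i
    have h1 : τ (x i : E) = 0 := congrFun h0 i
    exact RingOfIntegers.ext (by simpa using h1)
  set f : (E →+* F) → {s : Finset (Fin q) // Chain (Us L) s} := fun τ =>
    ⟨Finset.univ.filter fun i => C0 < exh L j i (fun l => τ (x l : E)), fun i hi i' hi' =>
      hC j _ (hy τ) i i' (Finset.mem_filter.1 hi).2 (Finset.mem_filter.1 hi').2⟩ with hf
  have hfm : ∀ τ i, mx C0 (exh L j i (fun l => τ (x l : E))) ≠ 0 → i ∈ (f τ).1 := fun τ i h =>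
    Finset.mem_filter.2 ⟨Finset.mem_univ _, (mx_ne h).1⟩
  refine hK0 E x hx j f (fun τ i => mx C0 (exh L j i (fun l => τ (x l : E)))) hfm
    (fun τ k => ?_) δ As hδ hμδ hδμ
  exact hA j (fun l => τ (x l : E)) (hy τ) (f τ)
    (fun i => mx C0 (exh L j i (fun l => τ (x l : E)))) (hfm τ)
    (fun i h => ⟨hC00.trans_lt (mx_ne h).1, (mx_ne h).2⟩) k

/-- **The inequality for the exceptional local heights**, integral coordinates. -/
theorem degL (hSA : StTheta) (hSB : StEnds) (n r : ℕ) (hn : 1 ≤ n) (hr : 1 ≤ r) {q m : ℕ}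
    (L : Fin q → Fin m → Fin (n + 1) → AlgebraicClosure ℚ) (hbot : ∀ i, Us L i ≠ ⊥)
    (htop : ∀ i, Us L i ≠ ⊤) (hinj : Function.Injective (Us L))
    (hcl : ∀ i i', Us L i ⊔ Us L i' = ⊤ ∨ ∃ i'', Us L i'' = Us L i ⊔ Us L i')
    (η : ℝ) (hη0 : 0 ≤ η) (hη1 : η < 1) :
    ∃ Z : Finset (MvPolynomial (Fin (n + 1)) (AlgebraicClosure ℚ)),
      (∀ Q ∈ Z, Q ≠ 0 ∧ ∃ t, Q.IsHomogeneous t) ∧
      ∀ (S : Finset Nat.Primes) (ε : ℝ), 0 < ε → ∃ Cc : ℝ, ∀ (E : Type) [Field E]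
        [NumberField E], Module.finrank ℚ E = r → ∀ x : Fin (n + 1) → 𝓞 E, x ≠ 0 →
      (∀ Q ∈ Z, ∀ τ : E →+* AlgebraicClosure ℚ, eval (fun i => τ (x i : E)) Q ≠ 0) →
      ∀ (j : AlgebraicClosure ℚ →+* ℂ)
        (jp : ∀ p : Nat.Primes, AlgebraicClosure ℚ →+* PadicAlgCl p),
      η * (∑ i, LstG (gk n (finrank (AlgebraicClosure ℚ) (Us L i))) r
          (fun τ : E →+* ℂ => exh L j i (fun l => τ (x l : E))) +
        ∑ p ∈ S, ∑ i, LstG (gk n (finrank (AlgebraicClosure ℚ) (Us L i))) r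
          (fun τ : E →+* PadicAlgCl p => exh L (jp p) i (fun l => τ (x l : E)))) ≤
        (1 + ε) * (Height.logHeight (fun i => (x i : E)) / r) + Cc := by
  classical
  set k : Fin q → ℕ := fun i => finrank (AlgebraicClosure ℚ) (Us L i) with hk
  have hk1 : ∀ i, 1 ≤ k i := fun i => by
    have h1 := (Submodule.finrank_eq_zero (S := Us L i)).not.2 (hbot i)
    have h2 : k i ≠ 0 := h1
    omega
  have hkn : ∀ i, k i ≤ n := fun i => by
    have h1 := Submodule.finrank_lt (htop i)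
    rw [finrank_fin_fun] at h1
    have h2 : k i < n + 1 := h1
    omega
  obtain ⟨d, θ, hd1, hθ⟩ := hSA n r hn hr η hη0 hη1
  have hNpos : 0 < NN n d := by
    rw [NN_eq]
    exact Nat.choose_pos (by omega)
  obtain ⟨n', hn'⟩ : ∃ n', NN n d = n' + 1 := ⟨NN n d - 1, by omega⟩
  have e : Fin (n' + 1) ≃ AD n d := (finCongr hn'.symm).trans (ee n d)
  choose M hMd hMU using fun s : {s : Finset (Fin q) // Chain (Us L) s} =>
    chain_frame (Us L) s.1 s.2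
  obtain ⟨G', hG'0, -, -, hG'⟩ := exists_poly (Finset.univ.image fun p :
    {s : Finset (Fin q) // Chain (Us L) s} × Fin (n + 1) × Fin (n + 1) => M p.1 p.2.1 p.2.2)
  have hMr : ∀ s k l, M s k l ∈ (mp (AlgebraicClosure ℚ) G').roots := fun s k l =>
    hG' _ (Finset.mem_image.2 ⟨(s, k, l), Finset.mem_univ _, rfl⟩)
  obtain ⟨Z, hZ, h⟩ := mainV n r d hr G' e
  refine ⟨Z.image (Pu e), fun Q hQ => ?_, fun S ε hε => ?_⟩
  · obtain ⟨u, hu, rfl⟩ := Finset.mem_image.1 hQ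
    exact ⟨Pu_ne e u (hZ u hu), _, Pu_hom e u⟩
  have hNr : (NN n d : ℝ) = (n' : ℝ) + 1 := by
    rw [hn']
    push_cast
    ring
  have hN0 : (0 : ℝ) < (n' : ℝ) + 1 := by positivity
  have hd0 : (0 : ℝ) < d := by exact_mod_cast hd1
  have hr0 : (0 : ℝ) < r := by exact_mod_cast hr
  obtain ⟨Cc, hC⟩ := h S (ε * ((n' : ℝ) + 1)) (mul_pos hε hN0)
  obtain ⟨Ci, Ki, hCi, hKi⟩ := flat_place2 (F := ℂ) (r := r) L hinj hcl G' hG'0 e M hMr hMd hMU
    (fun i => θ (k i))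
  have hKp := fun p : Nat.Primes => flat_place2 (F := PadicAlgCl p) (r := r) L hinj hcl G' hG'0 e
    M hMr hMd hMU (fun i => θ (k i))
  choose Cp Kp hCp hKp using hKp
  have hgk0 : ∀ i, gk n (k i) 0 = 0 := fun i => (hSB n (k i) (hk1 i) (hkn i)).1
  -- the truncation
  have hsum0 : ∀ i, 0 ≤ gk n (k i) 1 - gk n (k i) 0 := fun i =>
    sub_nonneg.2 (gk_mono n (k i) zero_le_one)
  set Gs : ℝ := ∑ i, (gk n (k i) 1 - gk n (k i) 0) with hGs
  refine ⟨(Cc + (r : ℝ) ^ (n' + 1) * (Ki + ∑ p ∈ S, Kp p)) /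
    ((r : ℝ) ^ n' * (d * ((n' : ℝ) + 1)) * r) + η * (Ci * Gs + ∑ p ∈ S, Cp p * Gs),
    fun E _ _ hE x hx hxZ j jp => ?_⟩
  have hci : Fintype.card (E →+* ℂ) = r := by rw [card_emb ℂ, hE]
  have hcp : ∀ p : Nat.Primes, Fintype.card (E →+* PadicAlgCl p) = r := fun p => by
    rw [card_emb (PadicAlgCl p), hE]
  have hL0 : (0 : ℝ) ≤ (d : ℝ) * ((n' : ℝ) + 1) := by positivity
  have hT : ∀ i, ∀ u : Fin r, ((d : ℝ) * ((n' : ℝ) + 1)) *
      (η * (r / (u + 1) * gk n (k i) (((u : ℝ) + 1) / r))) ≤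
      (θ (k i) u : ℝ) * ((n' : ℝ) + 1) - r / (u + 1) * ((PK n d (k i) (θ (k i) u) : ℕ) : ℝ) := by
    intro i u
    have h1 := hθ (k i) (hk1 i) (hkn i) u
    rw [hNr] at h1
    exact h1
  obtain ⟨δi, Asi, hδi, hμδi, hδμi, hsumi⟩ := place_layersK (n' := n') hr hci
    (fun i => gk n (k i)) hgk0 (fun i => θ (k i))
    (fun i u => ((PK n d (k i) (θ (k i) u) : ℕ) : ℝ)) ((d : ℝ) * ((n' : ℝ) + 1)) η hL0 hη0 hT
    (fun (τ : E →+* ℂ) i => mx Ci (exh L j i (fun l => τ (x l : E))))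
    (fun τ i => mx_nonneg (exh_nonneg L j i _))
  have hlp := fun p : Nat.Primes => place_layersK (n' := n') hr (hcp p)
    (fun i => gk n (k i)) hgk0 (fun i => θ (k i))
    (fun i u => ((PK n d (k i) (θ (k i) u) : ℕ) : ℝ)) ((d : ℝ) * ((n' : ℝ) + 1)) η hL0 hη0 hT
    (fun (τ : E →+* PadicAlgCl p) i => mx (Cp p) (exh L (jp p) i (fun l => τ (x l : E))))
    (fun τ i => mx_nonneg (exh_nonneg L (jp p) i _))
  choose δp Asp hδp hμδp hδμp hsump using hlp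
  have h1 := hC E hE x hx (fun u hu τ => by
      have h2 := hxZ (Pu e u) (Finset.mem_image_of_mem _ hu) τ
      rwa [eval_Pu] at h2)
    _ (hKi E x hx j δi Asi hδi hμδi hδμi)
    (fun p σ => ∑ i, ∑ u, δp p i u * ((θ (k i) u : ℝ) * cntA σ (Asp p i u) -
      ((PK n d (k i) (θ (k i) u) : ℕ) : ℝ)) - Kp p)
    (fun p _ => hKp p E x hx (jp p) (δp p) (Asp p) (hδp p) (hμδp p) (hδμp p))
  have h2 := hsumi Ki
  have h3 : ∀ p ∈ S, _ := fun p _ => hsump p (Kp p)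
  have h4 := Finset.sum_le_sum h3
  rw [Finset.sum_sub_distrib, ← Finset.mul_sum, ← Finset.mul_sum, ← Finset.mul_sum,
    ← Finset.mul_sum, ← Finset.mul_sum] at h4
  set A1 := ∑ i, LstG (gk n (k i)) r (fun τ : E →+* ℂ =>
    mx Ci (exh L j i (fun l => τ (x l : E)))) with hA1
  set A2 := ∑ p ∈ S, ∑ i, LstG (gk n (k i)) r (fun τ : E →+* PadicAlgCl p =>
    mx (Cp p) (exh L (jp p) i (fun l => τ (x l : E)))) with hA2
  set B1 := ∑ i, LstG (gk n (k i)) r (fun τ : E →+* ℂ =>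
    exh L j i (fun l => τ (x l : E))) with hB1
  set B2 := ∑ p ∈ S, ∑ i, LstG (gk n (k i)) r (fun τ : E →+* PadicAlgCl p =>
    exh L (jp p) i (fun l => τ (x l : E))) with hB2
  have hB1A : B1 ≤ A1 + Ci * Gs := by
    rw [hB1, hA1, hGs, Finset.mul_sum, ← Finset.sum_add_distrib]
    exact Finset.sum_le_sum fun i _ => LstG_add hr hci _ (fun u v huv => gk_mono n (k i) huv) _ _
      Ci fun τ => le_mx hCi
  have hB2A : B2 ≤ A2 + ∑ p ∈ S, Cp p * Gs := by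
    rw [hB2, hA2, ← Finset.sum_add_distrib]
    refine Finset.sum_le_sum fun p _ => ?_
    rw [hGs, Finset.mul_sum, ← Finset.sum_add_distrib]
    exact Finset.sum_le_sum fun i _ => LstG_add hr (hcp p) _
      (fun u v huv => gk_mono n (k i) huv) _ _ (Cp p) fun τ => le_mx (hCp p)
  set LH := Height.logHeight (fun i => (x i : E)) with hLH
  have hden : 0 < (r : ℝ) ^ n' * (d * ((n' : ℝ) + 1)) * r := by positivity
  have h8 : (r : ℝ) ^ n' * (d * ((n' : ℝ) + 1)) * r * (η * (A1 + A2)) ≤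
      (r : ℝ) ^ n' * (d * ((n' : ℝ) + 1)) * r * ((1 + ε) * (LH / r)) +
        (Cc + (r : ℝ) ^ (n' + 1) * (Ki + ∑ p ∈ S, Kp p)) := by
    have h9 : (r : ℝ) ^ n' * ((n' : ℝ) + 1 + ε * ((n' : ℝ) + 1)) * (d * LH) =
        (r : ℝ) ^ n' * (d * ((n' : ℝ) + 1)) * r * ((1 + ε) * (LH / r)) := by
      field_simp
    rw [h9] at h1
    have h10 : (r : ℝ) ^ n' * (d * ((n' : ℝ) + 1)) * r * (η * (A1 + A2)) =
        (r : ℝ) ^ n' * (d * ((n' : ℝ) + 1) * (η * (r * A1))) +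
          (r : ℝ) ^ n' * (d * ((n' : ℝ) + 1) * (η * (r * A2))) := by ring
    rw [h10]
    linarith
  have h9 : (r : ℝ) ^ n' * (d * ((n' : ℝ) + 1)) * r * ((1 + ε) * (LH / r)) +
        (Cc + (r : ℝ) ^ (n' + 1) * (Ki + ∑ p ∈ S, Kp p)) =
      (r : ℝ) ^ n' * (d * ((n' : ℝ) + 1)) * r * ((1 + ε) * (LH / r) +
        (Cc + (r : ℝ) ^ (n' + 1) * (Ki + ∑ p ∈ S, Kp p)) /
          ((r : ℝ) ^ n' * (d * ((n' : ℝ) + 1)) * r)) := by
    rw [mul_add ((r : ℝ) ^ n' * (d * ((n' : ℝ) + 1)) * r) ((1 + ε) * (LH / r)) _,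
      mul_div_cancel₀ _ hden.ne']
  rw [h9] at h8
  have h10 := le_of_mul_le_mul_left h8 hden
  have h11 : η * (B1 + B2) ≤ η * ((A1 + A2) + (Ci * Gs + ∑ p ∈ S, Cp p * Gs)) :=
    mul_le_mul_of_nonneg_left (by linarith) hη0
  rw [mul_add] at h11
  linarith

end Pool.Agent.T9h24.Ls
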