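import Mathlib
import Pool.Agent.T9h24.Ls.Spec

/-!
Two more numerical pieces.
-/

set_option autoImplicit false

namespace Pool.Agent.T9h24.Ls

/-- **Piece (C).** A lower bound for the Legendre transform.
Sketch: for `0 ≤ c ≤ 1`, `tl n k c ≤ C(n, k) c ^ (k + 1) / (k + 1)`, because `(j - k)⁺ ≤ C(j, k + 1)`,
`∑_j C(j, k + 1) C(n + 1, j) c ^ j (1 - c) ^ (n + 1 - j) = C(n + 1, k + 1) c ^ (k + 1)`
(`Nat.choose_mul` and the binomial theorem) and `C(n + 1, k + 1) / (n + 1) = C(n, k) / (k + 1)`. Now use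
`le_ciSup` (the set is bounded above by `|u|`, as `0 ≤ tl n k c`) at `c = (u / C(n, k)) ^ (1 / k)`. -/
def StLow : Prop := ∀ (n k : ℕ), 1 ≤ k → k ≤ n → ∀ u : ℝ, 0 ≤ u → u ≤ 1 →
  (k : ℝ) / (k + 1) * (u * (u / (n.choose k : ℝ)) ^ (1 / (k : ℝ))) ≤ gk n k u

/-- **Piece (D).** The Legendre transform for points.
Sketch: `tl n n c = c ^ (n + 1) / (n + 1)` and
`c u ≤ c ^ (n + 1) / (n + 1) + n / (n + 1) * u ^ (1 + 1 / n)` (Young: `Real.inner_le_nnorm_mul_nnorm`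
or `Real.young_inequality`, or Bernoulli), `≥` is (C). -/
def StPts : Prop := ∀ (n : ℕ), 1 ≤ n → ∀ u : ℝ, 0 ≤ u → u ≤ 1 →
  gk n n u = (n : ℝ) / (n + 1) * u ^ (1 + 1 / (n : ℝ))

end Pool.Agent.T9h24.Ls
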